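import Pool.Agent.Run7.h286.TG.RDef
import Pool.Agent.N227.PJ.Idx
import Pool.Agent.N769.PJ.Int

/-!
# Project TG, piece IDG (helper811): the degree of the Gram determinant

Adapted from `Pool/Agent/N227/PJ/Idx.lean` (helper227).
-/

set_option autoImplicit false
set_option linter.all false

open Polynomial IsDedekindDomain WithZero UniqueFactorizationMonoid
open scoped Classical

namespace Run7.h811.TG

open Pool.Agent.N352.PJ
open Pool.Agent.N874.PP (Ov Ev Sq1 U0)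
open Pool.Agent.N862.PP (algL_inj algO_inj isInt ov_iff not_ev_of_exp)
open Pool.Agent.N765.PP (weak fin_over loc_int val_lt val_le)
open Pool.Agent.N227.PJ (loc_main norm_unit exists_t exists_bas fd top_eq crd_co)
open Run7.h286.TG (Dat S_IDG)

/-- The norm of an element whose product with `a(t)` is divisible by `R`. -/
theorem pow_dvd_norm {R₀ O : Type} [CommRing R₀] [Nontrivial R₀] [CommRing O] [Algebra R₀ O] {n : ℕ}
    (b : Module.Basis (Fin n) R₀ O) {t : O} (hb : ∀ i, b i = t ^ (i : ℕ)) {a : R₀[X]}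
    (ha : a.Monic) (hd : a.natDegree ≤ n) (R : R₀) (ζ ω : O)
    (h : ζ * eval₂ (algebraMap R₀ O) t a = algebraMap R₀ O R * ω) :
    R ^ (n - a.natDegree) ∣ Algebra.norm R₀ ζ := by
  obtain ⟨d, hdd⟩ : ∃ d, d = a.natDegree := ⟨_, rfl⟩
  rw [← hdd] at hd ⊢
  obtain ⟨p, hp⟩ : ∃ p : Fin n → R₀[X], p = fun j : Fin n => if (j : ℕ) < d then X ^ (j : ℕ)
    else X ^ ((j : ℕ) - d) * a := ⟨_, rfl⟩
  have hpm : ∀ j, (p j).Monic := by
    intro j
    rw [hp]
    dsimp only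
    split_ifs
    · exact monic_X_pow _
    · exact (monic_X_pow _).mul ha
  have hpd : ∀ j, (p j).natDegree = (j : ℕ) := by
    intro j
    rw [hp]
    dsimp only
    split_ifs with h1
    · exact natDegree_X_pow _
    · rw [(monic_X_pow _).natDegree_mul ha, natDegree_X_pow, ← hdd]
      omega
  obtain ⟨c, hcd⟩ : ∃ c : Fin n → O, c = fun j => eval₂ (algebraMap R₀ O) t (p j) := ⟨_, rfl⟩
  have hc : ∀ j i, b.repr (c j) i = (p j).coeff i := by
    intro j i
    have h1 : c j = ∑ i : Fin n, (p j).coeff i • b i := by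
      rw [hcd]
      dsimp only
      rw [eval₂_eq_sum_range' _ (n := n) (by rw [hpd]; exact j.2), Finset.sum_range]
      refine Finset.sum_congr rfl fun i _ => ?_
      rw [hb, Algebra.smul_def]
    rw [h1, b.repr_sum_self]
  obtain ⟨M, hMd⟩ : ∃ M : Matrix (Fin n) (Fin n) R₀, M = Matrix.of fun (i j : Fin n) => (p j).coeff i :=
    ⟨_, rfl⟩
  have hM : M.det = 1 := by
    rw [Matrix.det_of_upperTriangular]
    · refine Finset.prod_eq_one fun i _ => ?_
      rw [hMd, Matrix.of_apply]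
      have h1 := (hpm i).coeff_natDegree
      rwa [hpd] at h1
    · intro i j hij
      rw [hMd, Matrix.of_apply]
      refine coeff_eq_zero_of_natDegree_lt ?_
      rw [hpd]
      exact hij
  obtain ⟨N, hNd⟩ : ∃ N : Matrix (Fin n) (Fin n) R₀, N = Matrix.of fun i j =>
    b.repr (ζ * c j) i := ⟨_, rfl⟩
  have hN : Algebra.leftMulMatrix b ζ * M = N := by
    ext i j
    have h1 := congrFun (Algebra.leftMulMatrix_mulVec_repr b ζ (c j)) i
    rw [hNd, Matrix.of_apply, ← h1, Matrix.mul_apply, Matrix.mulVec, dotProduct]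
    refine Finset.sum_congr rfl fun l _ => ?_
    rw [hMd, Matrix.of_apply, hc]
  have hdet : Algebra.norm R₀ ζ = N.det := by
    rw [← hN, Matrix.det_mul, hM, mul_one, Algebra.norm_eq_matrix_det b]
  have hcol : ∀ j : Fin n, ∃ v : Fin n → R₀, ∀ i, b.repr (ζ * c j) i
      = (if (j : ℕ) < d then 1 else R) * v i := by
    intro j
    by_cases h1 : (j : ℕ) < d
    · exact ⟨fun i => b.repr (ζ * c j) i, fun i => by rw [if_pos h1, one_mul]⟩
    · refine ⟨fun i => b.repr (ω * t ^ ((j : ℕ) - d)) i, fun i => ?_⟩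
      have h2 : c j = t ^ ((j : ℕ) - d) * eval₂ (algebraMap R₀ O) t a := by
        rw [hcd, hp]
        dsimp only
        rw [if_neg h1, eval₂_mul, eval₂_X_pow]
      have h3 : ζ * c j = R • (ω * t ^ ((j : ℕ) - d)) := by
        rw [h2, Algebra.smul_def]
        calc ζ * (t ^ ((j : ℕ) - d) * eval₂ (algebraMap R₀ O) t a)
            = (ζ * eval₂ (algebraMap R₀ O) t a) * t ^ ((j : ℕ) - d) := by ring
          _ = _ := by rw [h]; ring
      rw [if_neg h1, h3, map_smul, Finsupp.smul_apply, smul_eq_mul]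
  choose v hv using hcol
  have hN2 : N = Matrix.of fun (i j : Fin n) => (if (j : ℕ) < d then 1 else R)
      * (Matrix.of fun (i j : Fin n) => v j i) i j := by
    ext i j
    rw [hNd, Matrix.of_apply, Matrix.of_apply, Matrix.of_apply, hv]
  rw [hdet, hN2, Matrix.det_mul_row]
  refine Dvd.dvd.mul_right (dvd_of_eq ?_) _
  rw [Fin.prod_univ_eq_prod_range (fun j => if j < d then 1 else R) n]
  obtain ⟨m, rfl⟩ := Nat.exists_eq_add_of_le hd
  rw [Finset.prod_range_add, Finset.prod_eq_one, one_mul, Nat.add_sub_cancel_left]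
  · rw [Finset.prod_congr rfl (g := fun _ => R), Finset.prod_const, Finset.card_range]
    intro x _
    rw [if_neg (by omega)]
  · intro x hx
    rw [if_pos (Finset.mem_range.1 hx)]

section loc

variable {k K L O : Type} [Field k] [Field K] [Algebra k[X] K] [IsFractionRing k[X] K]
  [Field L] [Algebra K L] [Algebra k[X] L] [IsScalarTower k[X] K L] [CommRing O]
  [IsDedekindDomain O] [Algebra O L] [IsFractionRing O L] [Algebra k[X] O]
  [IsScalarTower k[X] O L] [IsIntegralClosure O k[X] L] {g : ℕ} {f : k[X][X]} {θ : L}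

theorem le_of_lt_one {𝔓 : HeightOneSpectrum O} {x : L} (h1 : 𝔓.valuation L x < 1) :
    𝔓.valuation L x ≤ exp (-1 : ℤ) := by
  by_cases h0 : 𝔓.valuation L x = 0
  · rw [h0]
    exact zero_le
  · rw [← log_le_iff_le_exp h0]
    rw [← exp_log h0, ← exp_zero, exp_lt_exp] at h1
    omega

theorem eval_O {t : O} (ht : algebraMap O L t = θ) (A : k[X][X]) :
    algebraMap O L (eval₂ (algebraMap k[X] O) t A) = eval₂ (algebraMap k[X] L) θ A := by
  rw [hom_eval₂, ht]
  congr 1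
  exact (IsScalarTower.algebraMap_eq k[X] O L).symm

include K in
theorem half (b : Module.Basis (Fin (2 * g + 1)) k[X] O) {t : O}
    (hb : ∀ i, b i = t ^ (i : ℕ)) (ht : algebraMap O L t = θ) {R : k[X]} (hR : Irreducible R)
    {A : k[X][X]} (hA : A.Monic) (hdeg : A.natDegree ≤ 2 * g + 1)
    (hvR : ∀ 𝔓 : HeightOneSpectrum O, Ov R 𝔓 → 𝔓.valuation L (algebraMap k[X] L R) = exp (-1 : ℤ))
    {ζ : O}
    (h2 : ∀ 𝔓 : HeightOneSpectrum O, Ov R 𝔓 →
      𝔓.valuation L (eval₂ (algebraMap k[X] L) θ A) < 1 ∨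
      𝔓.valuation L (algebraMap O L ζ) ≤ exp (-1 : ℤ)) :
    R ^ (2 * g + 1 - A.natDegree) ∣ Algebra.norm k[X] ζ := by
  have hRL : algebraMap k[X] L R ≠ 0 := fun h0 =>
    hR.ne_zero (algL_inj (K := K) (by rw [h0, map_zero]))
  have hv : ∀ 𝔓 : HeightOneSpectrum O, 𝔓.valuation L
      (algebraMap O L (ζ * eval₂ (algebraMap k[X] O) t A) / algebraMap k[X] L R) ≤ 1 := by
    intro 𝔓
    rw [map_div₀]
    refine div_le_one_of_le₀ ?_ zero_le'
    by_cases hov : Ov R 𝔓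
    · rw [hvR 𝔓 hov, map_mul, map_mul, eval_O ht]
      rcases h2 𝔓 hov with h3 | h3
      · calc _ ≤ 1 * exp (-1 : ℤ) := mul_le_mul' (𝔓.valuation_le_one _) (le_of_lt_one h3)
          _ = _ := one_mul _
      · calc _ ≤ exp (-1 : ℤ) * 1 := mul_le_mul' h3 (by
              rw [← eval_O ht]
              exact 𝔓.valuation_le_one _)
          _ = _ := mul_one _
    · have h1 : 𝔓.valuation L (algebraMap k[X] L R) = 1 := by
        rw [IsScalarTower.algebraMap_apply k[X] O L]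
        exact 𝔓.valuation_eq_one_iff_notMem.mpr hov
      rw [h1]
      exact 𝔓.valuation_le_one _
  obtain ⟨ω, hω⟩ := HeightOneSpectrum.mem_integers_of_valuation_le_one L _ hv
  refine pow_dvd_norm b hb hA hdeg R ζ ω ?_
  apply IsFractionRing.injective O L
  rw [map_mul (algebraMap O L) (algebraMap k[X] O R), hω, ← IsScalarTower.algebraMap_apply k[X] O L]
  field_simp

include K in
theorem exact_norm (b : Module.Basis (Fin (2 * g + 1)) k[X] O) {t : O}
    (hb : ∀ i, b i = t ^ (i : ℕ)) (ht : algebraMap O L t = θ) {R : k[X]} (hR : Irreducible R)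
    {A B : k[X][X]} (hA : A.Monic) (hB : B.Monic) (hdeg : A.natDegree + B.natDegree = 2 * g + 1)
    (hvR : ∀ 𝔓 : HeightOneSpectrum O, Ov R 𝔓 → 𝔓.valuation L (algebraMap k[X] L R) = exp (-1 : ℤ))
    (hdich : ∀ 𝔓 : HeightOneSpectrum O, Ov R 𝔓 →
      (𝔓.valuation L (eval₂ (algebraMap k[X] L) θ A) < 1 ∧
        𝔓.valuation L (eval₂ (algebraMap k[X] L) θ B) = 1) ∨
      (𝔓.valuation L (eval₂ (algebraMap k[X] L) θ A) = 1 ∧
        𝔓.valuation L (eval₂ (algebraMap k[X] L) θ B) < 1))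
    {ζ : O} (hζ : ζ ≠ 0)
    (h1 : ∀ 𝔓 : HeightOneSpectrum O, Ov R 𝔓 →
      𝔓.valuation L (eval₂ (algebraMap k[X] L) θ A) < 1 → 𝔓.valuation L (algebraMap O L ζ) = 1)
    (h2 : ∀ 𝔓 : HeightOneSpectrum O, Ov R 𝔓 →
      ¬ 𝔓.valuation L (eval₂ (algebraMap k[X] L) θ A) < 1 →
      𝔓.valuation L (algebraMap O L ζ) = exp (-1 : ℤ)) :
    R ^ B.natDegree ∣ Algebra.norm k[X] ζ ∧ ¬ R ^ (B.natDegree + 1) ∣ Algebra.norm k[X] ζ := by
  have hRL : algebraMap k[X] L R ≠ 0 := fun h0 =>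
    hR.ne_zero (algL_inj (K := K) (by rw [h0, map_zero]))
  have hζL : algebraMap O L ζ ≠ 0 := by simpa using hζ
  have e1 : 2 * g + 1 - A.natDegree = B.natDegree := by omega
  have e2 : 2 * g + 1 - B.natDegree = A.natDegree := by omega
  have g1 : R ^ B.natDegree ∣ Algebra.norm k[X] ζ := by
    rw [← e1]
    refine half (K := K) b hb ht hR hA (by omega) hvR fun 𝔓 hov => ?_
    by_cases h3 : 𝔓.valuation L (eval₂ (algebraMap k[X] L) θ A) < 1
    · exact Or.inl h3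
    · exact Or.inr (h2 𝔓 hov h3).le
  refine ⟨g1, fun hd => ?_⟩
  -- the complementary element
  have hvz : ∀ 𝔓 : HeightOneSpectrum O, Ov R 𝔓 →
      𝔓.valuation L (algebraMap k[X] L R / algebraMap O L ζ) ≤ 1 := by
    intro 𝔓 hov
    rw [map_div₀, hvR 𝔓 hov]
    refine div_le_one_of_le₀ ?_ zero_le'
    by_cases h3 : 𝔓.valuation L (eval₂ (algebraMap k[X] L) θ A) < 1
    · rw [h1 𝔓 hov h3, ← exp_zero, exp_le_exp]
      norm_num
    · rw [h2 𝔓 hov h3]
  obtain ⟨s, hs, hsi⟩ := loc_int (K := K) (O := O) hR _ hvz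
  obtain ⟨ζ', hζ'⟩ := (IsIntegralClosure.isIntegral_iff (A := O) (R := k[X]) (B := L)).1 hsi
  have hmul : ζ * ζ' = algebraMap k[X] O (s * R) := by
    apply IsFractionRing.injective O L
    rw [map_mul, hζ', ← IsScalarTower.algebraMap_apply k[X] O L, map_mul]
    field_simp
  have g2 : R ^ A.natDegree ∣ Algebra.norm k[X] ζ' := by
    rw [← e2]
    refine half (K := K) b hb ht hR hB (by omega) hvR fun 𝔓 hov => ?_
    rcases hdich 𝔓 hov with ⟨h3, h4⟩ | ⟨h3, h4⟩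
    · refine Or.inr ?_
      rw [hζ', map_mul, map_div₀, hvR 𝔓 hov, h1 𝔓 hov h3, div_one]
      calc _ ≤ 1 * exp (-1 : ℤ) := mul_le_mul' (val_le 𝔓 s) le_rfl
        _ = _ := one_mul _
    · exact Or.inl h4
  have h5 := congrArg (Algebra.norm k[X]) hmul
  rw [map_mul, Algebra.norm_algebraMap_of_basis b, Fintype.card_fin] at h5
  have h6 : R ^ (B.natDegree + 1) * R ^ A.natDegree ∣ (s * R) ^ (2 * g + 1) := by
    rw [← h5]
    exact mul_dvd_mul hd g2
  rw [← pow_add, mul_pow, show B.natDegree + 1 + A.natDegree = (2 * g + 1) + 1 by omega,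
    pow_succ, mul_comm (R ^ (2 * g + 1)) R] at h6
  have h7 := (mul_dvd_mul_iff_right (pow_ne_zero _ hR.ne_zero)).1 h6
  exact hs (hR.prime.dvd_of_dvd_pow h7)

end loc

/-- **IDG.** -/
theorem idg : S_IDG := by
  intro g k K L O _ _ _ _ _ _ _ _ _ _ _ _ _ _ _ _ f θ S₁ a b T h hsq D α hα hnev
    hev e hli hlat
  have hI := Pool.Agent.N769.PJ.int g k K L f θ h hsq
  obtain ⟨t, ht⟩ := exists_t (O := O) h
  obtain ⟨bs, hb⟩ := exists_bas h hI ht
  have hfin : Module.Finite k[X] O := Module.Finite.of_basis bs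
  have hfree : Module.Free k[X] O := Module.Free.of_basis bs
  have htf : Module.IsTorsionFree k[X] O := Pool.Agent.N862.PP.tf_O (K := K) (L := L)
  have hfd := fd h
  obtain ⟨P, hP⟩ : ∃ P : k[X], P = ∏ Q ∈ S₁, Q := ⟨_, rfl⟩
  have hQirr : ∀ Q ∈ S₁, Irreducible Q := D.irr
  have hQmon : ∀ Q ∈ S₁, Q.Monic := D.mon
  have hP0 : P ≠ 0 := by
    rw [hP]
    exact Finset.prod_ne_zero_iff.2 fun Q hQ => (hQirr Q hQ).ne_zero
  have hPL : algebraMap k[X] L P ≠ 0 := fun h0 =>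
    hP0 (algL_inj (K := K) (by rw [h0, map_zero]))
  -- square roots of the bounds
  obtain ⟨cc, hcc⟩ : ∃ cc : HeightOneSpectrum O → ℤᵐ⁰, ∀ 𝔓,
      cc 𝔓 = if 𝔓 ∈ T then exp (1 : ℤ) else 1 := ⟨_, fun _ => rfl⟩
  have hex : ∀ 𝔓 : HeightOneSpectrum O, ∃ y : L, y ≠ 0 ∧
      𝔓.valuation L α * cc 𝔓 = 𝔓.valuation L y ^ 2 := by
    intro 𝔓
    have hvα : 𝔓.valuation L α ≠ 0 := (Valuation.ne_zero_iff _).2 hα
    rw [hcc]
    by_cases hm : 𝔓 ∈ T
    · rw [if_pos hm]
      have h1 := hnev 𝔓 hm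
      obtain ⟨n, hn⟩ : ∃ n : ℤ, 𝔓.valuation L α = exp n :=
        ⟨log (𝔓.valuation L α), (exp_log hvα).symm⟩
      rw [not_ev_of_exp hn, Int.not_even_iff_odd] at h1
      obtain ⟨m, hm⟩ := h1
      obtain ⟨y, hy⟩ := 𝔓.valuation_surjective L (exp (m + 1))
      refine ⟨y, ?_, ?_⟩
      · rintro rfl
        rw [map_zero] at hy
        exact exp_ne_zero hy.symm
      · rw [hn, hy, ← exp_add, ← exp_nsmul, exp_inj, hm]
        simp
        ring
    · rw [if_neg hm, mul_one]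
      obtain ⟨y, hy⟩ := hev 𝔓 hm
      refine ⟨y, ?_, hy⟩
      rintro rfl
      rw [map_zero, zero_pow two_ne_zero] at hy
      exact hvα hy
  choose y hy0 hy using hex
  have hlat' : ∀ x : L, (∃ ξ : Fin (2 * g + 1) → k[X], x = ∑ i, algebraMap k[X] L (ξ i) * e i) ↔
      ∀ 𝔓 : HeightOneSpectrum O, 𝔓.valuation L x ≤ 𝔓.valuation L (y 𝔓) := by
    intro x
    rw [hlat x]
    refine forall_congr' fun 𝔓 => ?_
    rw [← hcc, hy 𝔓, pow_le_pow_iff_left₀ zero_le' zero_le' two_ne_zero]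
  -- the primes over `Q`
  have hcop : ∀ Q ∈ S₁, ∀ Q' ∈ S₁, Q' ≠ Q → ¬ Q ∣ Q' := by
    intro Q hQ Q' hQ' hne hd
    exact hne (eq_of_monic_of_associated (hQmon Q hQ) (hQmon Q' hQ')
      ((hQirr Q hQ).associated_of_dvd (hQirr Q' hQ') hd)).symm
  have hvP : ∀ Q ∈ S₁, ∀ 𝔓 : HeightOneSpectrum O, Ov Q 𝔓 →
      𝔓.valuation L (algebraMap k[X] L P) = 𝔓.valuation L (algebraMap k[X] L Q) := by
    intro Q hQ 𝔓 hov
    rw [hP, ← Finset.mul_prod_erase _ _ hQ, map_mul, map_mul, map_prod, map_prod]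
    rw [Finset.prod_eq_one, mul_one]
    intro Q' hQ'
    rw [Finset.mem_erase] at hQ'
    exact Pool.Agent.N765.PP.val_eq (hQirr Q hQ) hov (hcop Q hQ Q' hQ'.2 hQ'.1)
  have hcc1 : ∀ 𝔓 : HeightOneSpectrum O, 𝔓 ∉ T → cc 𝔓 = 1 := by
    intro 𝔓 hm
    rw [hcc, if_neg hm]
  have hprod_le : ∀ 𝔓 : HeightOneSpectrum O, 𝔓.valuation L (algebraMap k[X] L P) * cc 𝔓 ≤ 1 := by
    intro 𝔓
    by_cases hm : 𝔓 ∈ T
    · obtain ⟨Q, hQ, hov, -⟩ := (D.mem 𝔓).1 hm
      rw [hvP Q hQ 𝔓 hov, hcc, if_pos hm, D.vP Q hQ 𝔓 hov, ← exp_add]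
      simp
    · rw [hcc1 𝔓 hm, mul_one]
      exact val_le 𝔓 P
  have hbound : ∀ 𝔓 : HeightOneSpectrum O,
      𝔓.valuation L (algebraMap k[X] L P) * 𝔓.valuation L (y 𝔓) ^ 2 ≤ 𝔓.valuation L α := by
    intro 𝔓
    rw [← hy 𝔓]
    calc 𝔓.valuation L (algebraMap k[X] L P) * (𝔓.valuation L α * cc 𝔓)
        = 𝔓.valuation L α * (𝔓.valuation L (algebraMap k[X] L P) * cc 𝔓) := by
          rw [mul_left_comm]
      _ ≤ 𝔓.valuation L α * 1 := mul_le_mul_right (hprod_le 𝔓) _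
      _ = 𝔓.valuation L α := mul_one _
  -- the matrix `G`
  have hei : ∀ i, ∀ 𝔓 : HeightOneSpectrum O, 𝔓.valuation L (e i) ≤ 𝔓.valuation L (y 𝔓) := by
    intro i
    refine (hlat' _).1 ⟨fun j => if j = i then 1 else 0, ?_⟩
    rw [Finset.sum_eq_single i]
    · simp
    · intro j _ hj
      simp [hj]
    · intro h0
      exact absurd (Finset.mem_univ _) h0
  have hGint : ∀ i j, IsIntegral k[X] (algebraMap k[X] L P * (e i * e j) / α) := by
    intro i j
    have hv : ∀ 𝔓 : HeightOneSpectrum O,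
        𝔓.valuation L (algebraMap k[X] L P * (e i * e j) / α) ≤ 1 := by
      intro 𝔓
      have hvα : 𝔓.valuation L α ≠ 0 := (Valuation.ne_zero_iff _).2 hα
      rw [map_div₀, map_mul, map_mul]
      refine div_le_one_of_le₀ ?_ zero_le'
      refine le_trans ?_ (hbound 𝔓)
      rw [pow_two]
      exact mul_le_mul_right (mul_le_mul' (hei i 𝔓) (hei j 𝔓)) _
    obtain ⟨w, hw⟩ := HeightOneSpectrum.mem_integers_of_valuation_le_one L _ hv
    rw [← hw]
    exact isInt w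
  choose V hV using fun i j => (hI _).1 (hGint i j)
  obtain ⟨G, hGdef⟩ : ∃ G : Mt g k[X], ∀ i j, G i j = V i j (Fin.last (2 * g)) :=
    ⟨fun i j => V i j (Fin.last (2 * g)), fun _ _ => rfl⟩
  have hG : ∀ i j, algebraMap k[X] K (G i j) = h.top (algebraMap k[X] L P * (e i * e j) / α) := by
    intro i j
    rw [hGdef, top_eq, crd_co h (hV i j)]
  have hloc := fun {R : k[X]} (hR : Irreducible R) =>
    loc_main Pool.Agent.N262.PJ.det h hI bs hli hy0 hlat' hα hP0 hG hR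
      (fun 𝔓 _ => hbound 𝔓)
  have hintN : ∀ ζ : O, Algebra.intNorm k[X] O ζ = Algebra.norm k[X] ζ := fun ζ => by
    rw [Algebra.intNorm_eq_norm]
  -- the degrees
  have hfm : f.Monic ∧ f.natDegree = 2 * g + 1 := ⟨h.mon, h.deg⟩
  -- at the primes of `S₁`
  have hatQ : ∀ Q ∈ S₁, Q ^ (b Q).natDegree ∣ G.det ∧ ¬ Q ^ ((b Q).natDegree + 1) ∣ G.det := by
    intro Q hQ
    have hQi := hQirr Q hQ
    obtain ⟨s, c, ζ, hs, hc, hζ, hvζ, hdet⟩ := hloc hQi
    have hmT : ∀ 𝔓 : HeightOneSpectrum O, Ov Q 𝔓 → (𝔓 ∈ T ↔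
        𝔓.valuation L (eval₂ (algebraMap k[X] L) θ (a Q)) < 1) := by
      intro 𝔓 hov
      rw [D.mem]
      constructor
      · rintro ⟨Q', hQ', hov', h1⟩
        by_cases hne : Q' = Q
        · rw [hne] at h1
          exact h1
        · exact absurd ((ov_iff hQi hov Q').1 hov') (hcop Q hQ Q' hQ' hne)
      · intro h1
        exact ⟨Q, hQ, hov, h1⟩
    have hvz : ∀ 𝔓 : HeightOneSpectrum O, Ov Q 𝔓 → 𝔓.valuation L (algebraMap O L ζ) =
        exp (-1 : ℤ) * cc 𝔓 := by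
      intro 𝔓 hov
      have hvα : 𝔓.valuation L α ≠ 0 := (Valuation.ne_zero_iff _).2 hα
      have h1 := hvζ 𝔓 hov
      rw [← hy 𝔓, hvP Q hQ 𝔓 hov, D.vP Q hQ 𝔓 hov] at h1
      refine mul_right_cancel₀ hvα ?_
      rw [h1]
      ac_rfl
    obtain ⟨hd1, hd2⟩ := exact_norm (K := K) bs hb ht hQi (D.am Q hQ) (D.bm Q hQ)
      (D.deg hfm.1 hfm.2 hQ) (D.vP Q hQ) (D.dich Q hQ) hζ
      (fun 𝔓 hov h1 => by
        rw [hvz 𝔓 hov, hcc, if_pos ((hmT 𝔓 hov).2 h1), ← exp_add]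
        simp)
      (fun 𝔓 hov h1 => by
        rw [hvz 𝔓 hov, hcc1 𝔓 (fun hm => h1 ((hmT 𝔓 hov).1 hm)), mul_one])
    constructor
    · have h1 : Q ^ (b Q).natDegree ∣ s * G.det := by
        rw [hdet]
        exact hd1.mul_left _
      have h3 : IsCoprime (Q ^ (b Q).natDegree) s :=
        ((hQi.coprime_iff_not_dvd).2 hs).pow_left
      exact h3.dvd_of_dvd_mul_left h1
    · intro h1
      apply hd2
      have h2 : Q ^ ((b Q).natDegree + 1) ∣ c * Algebra.norm k[X] ζ := by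
        rw [← hdet]
        exact h1.mul_left _
      have h3 : IsCoprime (Q ^ ((b Q).natDegree + 1)) c :=
        ((hQi.coprime_iff_not_dvd).2 hc).pow_left
      exact h3.dvd_of_dvd_mul_left h2
  obtain ⟨P', hP'⟩ : ∃ P' : k[X], P' = ∏ Q ∈ S₁, Q ^ (b Q).natDegree := ⟨_, rfl⟩
  have hP'0 : P' ≠ 0 := by
    rw [hP']
    exact Finset.prod_ne_zero_iff.2 fun Q hQ => pow_ne_zero _ (hQirr Q hQ).ne_zero
  have hPd : P' ∣ G.det := by
    rw [hP']
    refine Finset.prod_dvd_of_coprime ?_ fun Q hQ => (hatQ Q hQ).1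
    intro Q hQ Q' hQ' hne
    exact (((hQirr Q hQ).coprime_iff_not_dvd).2 (hcop Q hQ Q' hQ' hne.symm)).pow
  obtain ⟨W, hW⟩ := hPd
  have hWu : IsUnit W := by
    by_contra hnu
    have hW0 : W ≠ 0 := by
      rintro rfl
      rw [mul_zero] at hW
      have h1 := (hloc (R := X) irreducible_X)
      obtain ⟨s, c, ζ, hs, hc, hζ, hvζ, hdet⟩ := h1
      rw [hW, mul_zero] at hdet
      have ha0 : c ≠ 0 := fun h0 => hc (by rw [h0]; exact dvd_zero _)
      have h2 : Algebra.norm k[X] ζ = 0 := (mul_eq_zero.1 hdet.symm).resolve_left ha0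
      rw [← hintN] at h2
      exact hζ (Algebra.intNorm_eq_zero.1 h2)
    obtain ⟨R, hR, hRW⟩ := WfDvdMonoid.exists_irreducible_factor hnu hW0
    by_cases hex : ∃ Q ∈ S₁, R ∣ Q
    · obtain ⟨Q, hQ, hRQ⟩ := hex
      have h1 : Q ∣ W := ((hR.associated_of_dvd (hQirr Q hQ) hRQ).dvd').trans hRW
      apply (hatQ Q hQ).2
      rw [hW, pow_succ]
      refine mul_dvd_mul ?_ h1
      rw [hP']
      exact Finset.dvd_prod_of_mem (fun Q => Q ^ (b Q).natDegree) hQ
    · push Not at hex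
      obtain ⟨s, c, ζ, hs, hc, hζ, hvζ, hdet⟩ := hloc hR
      have hRP : ¬ R ∣ P := by
        intro h1
        rw [hP] at h1
        obtain ⟨Q, hQ, hRQ⟩ := hR.prime.exists_mem_finset_dvd h1
        exact hex Q hQ hRQ
      have hn : ¬ R ∣ Algebra.norm k[X] ζ := by
        refine norm_unit (K := K) (L := L) bs hR hζ fun 𝔓 hov => ?_
        have hvα : 𝔓.valuation L α ≠ 0 := (Valuation.ne_zero_iff _).2 hα
        have hni : 𝔓 ∉ T := by
          intro hm
          obtain ⟨Q, hQ, h1, -⟩ := (D.mem 𝔓).1 hm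
          exact hex Q hQ ((ov_iff hR hov Q).1 h1)
        have h1 := hvζ 𝔓 hov
        rw [← hy 𝔓, hcc1 𝔓 hni, mul_one, Pool.Agent.N765.PP.val_eq hR hov hRP, one_mul] at h1
        exact mul_right_cancel₀ hvα (by rw [h1, one_mul])
      have h1 : R ∣ c * Algebra.norm k[X] ζ := by
        rw [← hdet, hW]
        exact (hRW.mul_left _).mul_left _
      rcases hR.prime.dvd_or_dvd h1 with h2 | h2
      · exact hc h2
      · exact hn h2
  have hG0 : G.det ≠ 0 := by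
    rw [hW]
    exact mul_ne_zero hP'0 hWu.ne_zero
  refine ⟨G, hG0, ?_, ?_⟩
  · rw [hW, natDegree_mul hP'0 hWu.ne_zero, natDegree_eq_zero_of_isUnit hWu, add_zero, hP',
      natDegree_prod_of_monic _ _ fun Q hQ => (hQmon Q hQ).pow _]
    refine Finset.sum_congr rfl fun Q hQ => ?_
    rw [natDegree_pow]
  · intro i j
    rw [hG, hP]

end Run7.h811.TG
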